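import Pool.Agent.H81.LU.YStmts

/-!
Project LU, part Y: a based complex over `ℤ` with a contraction onto a subcomplex with two basis
elements `a`, `b` with `∂ b = 2 a` has the homology `ℤ/2` in degree 2 only.
-/

set_option autoImplicit false

open scoped BigOperators
open Pool.H3.L2

namespace Pool.LU

theorem ctr_main (C : BCx ℤ) (H : Matrix C.S C.S ℤ) (a b α β : C.S → ℤ)
    (hH : ∀ s t, H s t ≠ 0 → C.deg t = C.deg s + 1)
    (ha : ∀ s, a s ≠ 0 → C.deg s = 2) (hb : ∀ s, b s ≠ 0 → C.deg s = 3)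
    (hα : ∀ s, α s ≠ 0 → C.deg s = 2) (hβ : ∀ s, β s ≠ 0 → C.deg s = 3)
    (h1 : C.D * H + H * C.D + Matrix.vecMulVec α a + Matrix.vecMulVec β b = 1)
    (h2 : Matrix.vecMul b C.D = (2 : ℤ) • a) (h3 : C.D.mulVec α = (2 : ℤ) • β)
    (h4 : a ⬝ᵥ α = 1) :
    (∀ k, k ≠ 2 → Subsingleton (C.Hk k)) ∧ Nat.card (C.Hk 2) = 2 := by
  classical
  -- the basic identity
  have key : ∀ v : C.S → ℤ, Matrix.vecMul v C.D = 0 →
      v = Matrix.vecMul (Matrix.vecMul v H) C.D + (v ⬝ᵥ α) • a + (v ⬝ᵥ β) • b := by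
    intro v hv
    have e1 : Matrix.vecMul v (C.D * H + H * C.D + Matrix.vecMulVec α a + Matrix.vecMulVec β b) =
        v := by rw [h1, Matrix.vecMul_one]
    rw [Matrix.vecMul_add, Matrix.vecMul_add, Matrix.vecMul_add, ← Matrix.vecMul_vecMul, hv,
      Matrix.zero_vecMul, zero_add, ← Matrix.vecMul_vecMul, Matrix.vecMul_vecMulVec,
      Matrix.vecMul_vecMulVec] at e1
    exact e1.symm
  have hdot : ∀ (v γ : C.S → ℤ) (k l : ℕ), (∀ s, C.deg s ≠ k → v s = 0) →
      (∀ s, γ s ≠ 0 → C.deg s = l) → k ≠ l → v ⬝ᵥ γ = 0 := by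
    intro v γ k l hv hγ hkl
    refine Finset.sum_eq_zero fun s _ => ?_
    by_cases hs : C.deg s = k
    · have : γ s = 0 := by
        by_contra h
        exact hkl (hs.symm.trans (hγ s h))
      rw [this, mul_zero]
    · rw [hv s hs, zero_mul]
  have hsupp : ∀ (v : C.S → ℤ) (k : ℕ), (∀ s, C.deg s ≠ k → v s = 0) →
      ∀ s, C.deg s ≠ k + 1 → Matrix.vecMul v H s = 0 := by
    intro v k hv s hs
    refine Finset.sum_eq_zero fun t _ => ?_
    by_cases ht : C.deg t = k
    · have : H t s = 0 := by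
        by_contra h
        exact hs (by rw [hH t s h, ht])
      show v t * H t s = 0
      rw [this, mul_zero]
    · show v t * H t s = 0
      rw [hv t ht, zero_mul]
  have ha0 : ∀ s, C.deg s ≠ 2 → a s = 0 := fun s hs => by
    by_contra h
    exact hs (ha s h)
  have hb0 : ∀ s, C.deg s ≠ 3 → b s = 0 := fun s hs => by
    by_contra h
    exact hs (hb s h)
  have haD : Matrix.vecMul a C.D = 0 := by
    have e1 : Matrix.vecMul ((2 : ℤ) • a) C.D = 0 := by
      rw [← h2, Matrix.vecMul_vecMul, C.D_D, Matrix.vecMul_zero]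
    rw [Matrix.smul_vecMul] at e1
    exact (smul_eq_zero.1 e1).resolve_left (by norm_num)
  have hane : a ≠ 0 := by
    intro h
    rw [h, zero_dotProduct] at h4
    exact zero_ne_one h4
  constructor
  · intro k hk
    rw [Submodule.Quotient.subsingleton_iff, eq_top_iff]
    rintro ⟨v, hv1, hv2⟩ -
    show v ∈ C.Bk k
    have e1 := key v hv2
    have e2 : v ⬝ᵥ α = 0 := hdot v α k 2 hv1 hα hk
    by_cases hk3 : k = 3
    · subst hk3
      have e3 : (v ⬝ᵥ β) • ((2 : ℤ) • a) = 0 := by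
        have e4 := congrArg (fun w => Matrix.vecMul w C.D) e1
        rw [hv2, e2, zero_smul, add_zero, Matrix.add_vecMul, Matrix.vecMul_vecMul, C.D_D,
          Matrix.vecMul_zero, zero_add, Matrix.smul_vecMul, h2] at e4
        exact e4.symm
      have e5 : v ⬝ᵥ β = 0 := by
        rcases smul_eq_zero.1 e3 with h | h
        · exact h
        · exact absurd ((smul_eq_zero.1 h).resolve_left (by norm_num)) hane
      rw [e2, e5, zero_smul, zero_smul, add_zero, add_zero] at e1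
      exact ⟨_, hsupp v 3 hv1, e1.symm⟩
    · have e5 : v ⬝ᵥ β = 0 := hdot v β k 3 hv1 hβ hk3
      rw [e2, e5, zero_smul, zero_smul, add_zero, add_zero] at e1
      exact ⟨_, hsupp v k hv1, e1.symm⟩
  · let φ : ↥(C.Zk 2) →ₗ[ℤ] ZMod 2 :=
      { toFun := fun v => ((v.1 ⬝ᵥ α : ℤ) : ZMod 2)
        map_add' := fun v w => by
          show (((v.1 + w.1) ⬝ᵥ α : ℤ) : ZMod 2) = _
          rw [add_dotProduct, Int.cast_add]
        map_smul' := fun c v => by
          show (((c • v.1) ⬝ᵥ α : ℤ) : ZMod 2) = _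
          rw [smul_dotProduct, smul_eq_mul, Int.cast_mul, RingHom.id_apply, zsmul_eq_mul] }
    have haZ : a ∈ C.Zk 2 := ⟨ha0, haD⟩
    have hsurj : Function.Surjective φ := by
      intro x
      obtain ⟨n, rfl⟩ := ZMod.intCast_surjective x
      refine ⟨n • ⟨a, haZ⟩, ?_⟩
      rw [map_smul]
      show n • ((a ⬝ᵥ α : ℤ) : ZMod 2) = n
      rw [h4, Int.cast_one, zsmul_eq_mul, mul_one]
    have hker : LinearMap.ker φ = (C.Bk 2).submoduleOf (C.Zk 2) := by
      ext ⟨v, hv⟩
      rw [LinearMap.mem_ker]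
      show ((v ⬝ᵥ α : ℤ) : ZMod 2) = 0 ↔ v ∈ C.Bk 2
      rw [ZMod.intCast_zmod_eq_zero_iff_dvd]
      constructor
      · rintro ⟨m, hm⟩
        have e1 := key v hv.2
        have e5 : v ⬝ᵥ β = 0 := hdot v β 2 3 hv.1 hβ (by norm_num)
        rw [e5, zero_smul, add_zero, hm] at e1
        refine ⟨Matrix.vecMul v H + m • b, ?_, ?_⟩
        · intro s hs
          rw [Pi.add_apply, hsupp v 2 hv.1 s hs, Pi.smul_apply, hb0 s hs, smul_zero, add_zero]
        · rw [Matrix.add_vecMul, Matrix.smul_vecMul, h2, smul_smul]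
          conv_rhs => rw [e1]
          congr 2
          push_cast
          ring
      · rintro ⟨w, -, rfl⟩
        refine ⟨w ⬝ᵥ β, ?_⟩
        rw [← Matrix.dotProduct_mulVec, h3, dotProduct_smul, smul_eq_mul]
        push_cast
        rfl
    have e := (Submodule.quotEquivOfEq _ _ hker.symm).trans (φ.quotKerEquivOfSurjective hsurj)
    rw [Nat.card_congr e.toEquiv, Nat.card_zmod]

end Pool.LU
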