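import Pool.Agent.H32.LU.Ctr

/-!
Project LU, part Y: certificates for the complexes of full subcomplexes, by bit masks.
-/

set_option autoImplicit false

open scoped BigOperators
open Pool.H3.L2

namespace Pool.LU

namespace MC

/-- the mask of a set -/
def mk {n : ℕ} (σ : Finset (Fin n)) : ℕ := ∑ v ∈ σ, 2 ^ v.1

theorem mk_testBit {n : ℕ} (σ : Finset (Fin n)) (v : Fin n) : (mk σ).testBit v.1 = true ↔ v ∈ σ := by
  have h1 : mk σ = ∑ i ∈ σ.map Fin.valEmbedding, 2 ^ i := by
    rw [Finset.sum_map]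
    rfl
  have h2 := Finset.toFinset_bitIndices_sum_two_pow (σ.map Fin.valEmbedding)
  rw [← h1] at h2
  rw [← Nat.mem_bitIndices, ← List.mem_toFinset, h2, Finset.mem_map]
  constructor
  · rintro ⟨w, hw, hw'⟩
    rwa [Fin.val_injective hw'] at hw
  · intro h
    exact ⟨v, h, rfl⟩

theorem mk_inj {n : ℕ} {σ τ : Finset (Fin n)} (h : mk σ = mk τ) : σ = τ := by
  ext v
  rw [← mk_testBit, ← mk_testBit, h]

theorem mk_lt {n : ℕ} (σ : Finset (Fin n)) : mk σ < 2 ^ n := by
  have h1 : mk σ = ∑ i ∈ σ.map Fin.valEmbedding, 2 ^ i := by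
    rw [Finset.sum_map]
    rfl
  rw [h1]
  refine (Finset.sum_le_sum_of_subset (t := Finset.range n) ?_).trans_lt ?_
  · intro i hi
    obtain ⟨v, -, rfl⟩ := Finset.mem_map.1 hi
    exact Finset.mem_range.2 v.2
  · have := Nat.geomSum_lt (m := 2) (n := n) (s := Finset.range n) le_rfl (by simp)
    simpa using this

theorem mk_erase {n : ℕ} (σ : Finset (Fin n)) {v : Fin n} (hv : v ∈ σ) :
    mk (σ.erase v) = mk σ - 2 ^ v.1 := by
  unfold mk
  rw [← Finset.add_sum_erase σ _ hv]
  omega

theorem mk_insert {n : ℕ} (σ : Finset (Fin n)) {v : Fin n} (hv : v ∉ σ) :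
    mk (insert v σ) = mk σ + 2 ^ v.1 := by
  unfold mk
  rw [Finset.sum_insert hv]
  omega

/-- evaluation of a sparse vector -/
def ev (l : List (ℕ × ℤ)) (k : ℕ) : ℤ := (l.map fun p => if p.1 = k then p.2 else 0).sum

theorem ev_nil (k : ℕ) : ev [] k = 0 := rfl

theorem ev_cons (p : ℕ × ℤ) (l : List (ℕ × ℤ)) (k : ℕ) :
    ev (p :: l) k = (if p.1 = k then p.2 else 0) + ev l k := rfl

theorem ev_append (l l' : List (ℕ × ℤ)) (k : ℕ) : ev (l ++ l') k = ev l k + ev l' k := by
  induction l with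
  | nil => simp [ev_nil]
  | cons p l ih => rw [List.cons_append, ev_cons, ev_cons, ih, add_assoc]

/-- multiplication of a sparse vector by a number -/
def sc (c : ℤ) (l : List (ℕ × ℤ)) : List (ℕ × ℤ) := l.map fun p => (p.1, c * p.2)

theorem ev_sc (c : ℤ) (l : List (ℕ × ℤ)) (k : ℕ) : ev (sc c l) k = c * ev l k := by
  induction l with
  | nil => simp [sc, ev_nil]
  | cons p l ih =>
    show (if p.1 = k then c * p.2 else 0) + ev (sc c l) k = _
    rw [ih, ev_cons, mul_add]
    congr 1
    split_ifs <;> simp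

/-- insertion into a sorted sparse vector -/
def ins (k : ℕ) (c : ℤ) : List (ℕ × ℤ) → List (ℕ × ℤ)
  | [] => if c = 0 then [] else [(k, c)]
  | p :: l => if p.1 = k then (if p.2 + c = 0 then l else (k, p.2 + c) :: l)
      else if p.1 < k then p :: ins k c l else if c = 0 then p :: l else (k, c) :: p :: l

theorem ev_ins (k : ℕ) (c : ℤ) (l : List (ℕ × ℤ)) (j : ℕ) :
    ev (ins k c l) j = (if k = j then c else 0) + ev l j := by
  induction l with
  | nil =>
    unfold ins
    split_ifs with h1 h2 h2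
    · simp [ev_nil, h1]
    · simp [ev_nil]
    · rw [ev_cons, if_pos h2]
    · rw [ev_cons, if_neg h2]
  | cons p l ih =>
    unfold ins
    by_cases h1 : p.1 = k
    · rw [if_pos h1]
      by_cases h2 : p.2 + c = 0
      · rw [if_pos h2, ev_cons, h1]
        split_ifs with h3
        · linarith
        · ring
      · rw [if_neg h2, ev_cons, ev_cons, h1]
        split_ifs with h3
        · ring
        · ring
    · rw [if_neg h1]
      by_cases h2 : p.1 < k
      · rw [if_pos h2, ev_cons, ih, ev_cons]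
        ring
      · rw [if_neg h2]
        by_cases h3 : c = 0
        · rw [if_pos h3, h3]
          simp
        · rw [if_neg h3, ev_cons]

/-- normal form -/
def nf : List (ℕ × ℤ) → List (ℕ × ℤ)
  | [] => []
  | p :: l => ins p.1 p.2 (nf l)

theorem ev_nf (l : List (ℕ × ℤ)) (j : ℕ) : ev (nf l) j = ev l j := by
  induction l with
  | nil => rfl
  | cons p l ih =>
    show ev (ins p.1 p.2 (nf l)) j = _
    rw [ev_ins, ih, ev_cons]

/-- linear extension -/
def ap (f : ℕ → List (ℕ × ℤ)) : List (ℕ × ℤ) → List (ℕ × ℤ)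
  | [] => []
  | p :: l => sc p.2 (f p.1) ++ ap f l

/-- sums over an indexed family of keys -/
theorem ev_ap {S : Type} [Fintype S] (m : S → ℕ) (hm : Function.Injective m)
    (f : ℕ → List (ℕ × ℤ)) (l : List (ℕ × ℤ)) (hl : ∀ p ∈ l, ∃ s, m s = p.1) (k : ℕ) :
    ∑ s, ev l (m s) * ev (f (m s)) k = ev (ap f l) k := by
  classical
  induction l with
  | nil => simp [ev_nil, ap]
  | cons p l ih =>
    have ih' := ih fun q hq => hl q (List.mem_cons_of_mem _ hq)
    show _ = ev (sc p.2 (f p.1) ++ ap f l) k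
    rw [ev_append, ev_sc, ← ih']
    obtain ⟨s0, hs0⟩ := hl p List.mem_cons_self
    have h1 : ∑ s, (if p.1 = m s then p.2 else 0) * ev (f (m s)) k = p.2 * ev (f p.1) k := by
      rw [Finset.sum_eq_single s0]
      · rw [if_pos hs0.symm, hs0]
      · intro s _ hs
        rw [if_neg, zero_mul]
        intro h
        exact hs (hm (h.symm.trans hs0.symm))
      · intro h
        exact absurd (Finset.mem_univ _) h
    rw [← h1, ← Finset.sum_add_distrib]
    refine Finset.sum_congr rfl fun s _ => ?_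
    rw [ev_cons, add_mul]

/-- the same for a single function -/
theorem ev_dot {S : Type} [Fintype S] (m : S → ℕ) (hm : Function.Injective m)
    (g : ℕ → ℤ) (l : List (ℕ × ℤ)) (hl : ∀ p ∈ l, ∃ s, m s = p.1) :
    ∑ s, ev l (m s) * g (m s) = (l.map fun p => p.2 * g p.1).sum := by
  classical
  induction l with
  | nil => simp [ev_nil]
  | cons p l ih =>
    have ih' := ih fun q hq => hl q (List.mem_cons_of_mem _ hq)
    rw [List.map_cons, List.sum_cons, ← ih']
    obtain ⟨s0, hs0⟩ := hl p List.mem_cons_self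
    have h1 : ∑ s, (if p.1 = m s then p.2 else 0) * g (m s) = p.2 * g p.1 := by
      rw [Finset.sum_eq_single s0]
      · rw [if_pos hs0.symm, hs0]
      · intro s _ hs
        rw [if_neg, zero_mul]
        intro h
        exact hs (hm (h.symm.trans hs0.symm))
      · intro h
        exact absurd (Finset.mem_univ _) h
    rw [← h1, ← Finset.sum_add_distrib]
    refine Finset.sum_congr rfl fun s _ => ?_
    rw [ev_cons, add_mul]

/-! ### the faces -/

/-- the number of bits of `m` below `v` -/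
def pc (m : ℕ) : ℕ → ℕ
  | 0 => 0
  | v + 1 => if m.testBit v then pc m v + 1 else pc m v

/-- the faces of `m` opposite to the vertices below `v`, with signs -/
def fc (m : ℕ) : ℕ → List (ℕ × ℤ)
  | 0 => []
  | v + 1 => if m.testBit v then (m - 2 ^ v, if pc m v % 2 = 0 then 1 else -1) :: fc m v else fc m v

theorem fc_succ (m v : ℕ) : fc m (v + 1) = if m.testBit v then
    (m - 2 ^ v, if pc m v % 2 = 0 then 1 else -1) :: fc m v else fc m v := rfl

theorem pc_eq {n : ℕ} (σ : Finset (Fin n)) (v : ℕ) (hv : v ≤ n) :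
    pc (mk σ) v = (σ.filter fun u => u.1 < v).card := by
  induction v with
  | zero => simp [pc]
  | succ v ih =>
    have ih' := ih (by omega)
    have h1 := mk_testBit σ ⟨v, by omega⟩
    simp only at h1
    unfold pc
    by_cases h2 : (mk σ).testBit v = true
    · rw [if_pos h2, ih']
      have h3 : (σ.filter fun u => u.1 < v + 1) =
          insert (⟨v, by omega⟩ : Fin n) (σ.filter fun u => u.1 < v) := by
        ext u
        rw [Finset.mem_insert, Finset.mem_filter, Finset.mem_filter]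
        constructor
        · rintro ⟨h4, h5⟩
          by_cases h6 : u.1 = v
          · exact Or.inl (Fin.ext h6)
          · exact Or.inr ⟨h4, by omega⟩
        · rintro (h4 | ⟨h4, h5⟩)
          · rw [h4]
            exact ⟨h1.1 h2, by simp⟩
          · exact ⟨h4, by omega⟩
      rw [h3, Finset.card_insert_of_notMem]
      simp
    · rw [if_neg h2, ih']
      congr 1
      ext u
      rw [Finset.mem_filter, Finset.mem_filter]
      constructor
      · rintro ⟨h4, h5⟩
        exact ⟨h4, by omega⟩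
      · rintro ⟨h4, h5⟩
        refine ⟨h4, ?_⟩
        by_contra h6
        have h7 : u = ⟨v, by omega⟩ := Fin.ext (by simp; omega)
        rw [h7] at h4
        exact h2 (h1.2 h4)

theorem pc_card {n : ℕ} (σ : Finset (Fin n)) : pc (mk σ) n = σ.card := by
  rw [pc_eq σ n le_rfl]
  congr 1
  ext u
  simp

theorem fc_ev (m v k : ℕ) : ev (fc m v) k = ∑ i ∈ Finset.range v,
    if m.testBit i then (if m - 2 ^ i = k then (if pc m i % 2 = 0 then (1 : ℤ) else -1) else 0)
    else 0 := by
  induction v with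
  | zero => rfl
  | succ v ih =>
    rw [Finset.sum_range_succ, ← ih, fc_succ]
    by_cases h : m.testBit v = true
    · rw [if_pos h, if_pos h, ev_cons, add_comm]
    · rw [if_neg h, if_neg h, add_zero]

theorem faces_ev {n : ℕ} (σ : Finset (Fin n)) (k : ℕ) :
    ev (fc (mk σ) n) k = ∑ v ∈ σ, if mk (σ.erase v) = k then
      sg (fun v : Fin n => v.1) v (σ.erase v) else 0 := by
  rw [fc_ev, Finset.sum_range]
  have h1 : ∀ v : Fin n, (if (mk σ).testBit v.1 then (if mk σ - 2 ^ v.1 = k then
      (if pc (mk σ) v.1 % 2 = 0 then (1 : ℤ) else -1) else 0) else 0) =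
      if v ∈ σ then (if mk (σ.erase v) = k then sg (fun v : Fin n => v.1) v (σ.erase v) else 0)
      else 0 := by
    intro v
    by_cases hv : v ∈ σ
    · rw [if_pos hv, if_pos ((mk_testBit σ v).2 hv), mk_erase σ hv]
      congr 1
      unfold sg
      have h2 : ((σ.erase v).filter fun u => u.1 < v.1) = σ.filter fun u => u.1 < v.1 := by
        ext u
        simp only [Finset.mem_filter, Finset.mem_erase]
        constructor
        · rintro ⟨⟨-, h3⟩, h4⟩
          exact ⟨h3, h4⟩
        · rintro ⟨h3, h4⟩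
          exact ⟨⟨fun h5 => by rw [h5] at h4; exact lt_irrefl _ h4, h3⟩, h4⟩
      rw [h2, pc_eq σ v.1 v.2.le]
      split_ifs with h3
      · exact (Nat.even_iff.2 h3).neg_one_pow.symm
      · exact (Nat.odd_iff.2 (by omega)).neg_one_pow.symm
    · rw [if_neg hv, if_neg]
      intro h
      exact hv ((mk_testBit σ v).1 h)
  rw [Finset.sum_congr rfl fun v _ => h1 v, Finset.sum_ite_mem, Finset.univ_inter]

/-! ### the cliques -/

/-- the masks of the cliques in `a`, below `v` -/
def cl (nb : ℕ → ℕ) : ℕ → ℕ → List ℕ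
  | 0, _ => [0]
  | v + 1, a => if a.testBit v then cl nb v a ++ (cl nb v (a &&& nb v)).map (fun m => m + 2 ^ v)
      else cl nb v a

theorem cl_complete {n : ℕ} (nb : ℕ → ℕ) (adj : Fin n → Fin n → Prop)
    (hn : ∀ u v : Fin n, adj u v ↔ (nb u.1).testBit v.1 = true) (v : ℕ) (hv : v ≤ n) (a : ℕ)
    (σ : Finset (Fin n)) (h1 : Clq adj σ) (h2 : ∀ u ∈ σ, u.1 < v ∧ a.testBit u.1 = true) :
    mk σ ∈ cl nb v a := by
  induction v generalizing a σ with
  | zero =>
    have h3 : σ = ∅ := Finset.eq_empty_of_forall_notMem fun u hu => by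
      have := (h2 u hu).1
      omega
    rw [h3]
    simp [cl, mk]
  | succ v ih =>
    unfold cl
    by_cases h3 : (⟨v, by omega⟩ : Fin n) ∈ σ
    · have h4 := (h2 _ h3).2
      simp only at h4
      rw [if_pos h4, List.mem_append]
      right
      rw [List.mem_map]
      refine ⟨mk (σ.erase ⟨v, by omega⟩), ?_, ?_⟩
      · refine ih (by omega) _ _ ?_ ?_
        · intro x hx y hy hxy
          exact h1 x (Finset.mem_of_mem_erase hx) y (Finset.mem_of_mem_erase hy) hxy
        · intro u hu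
          obtain ⟨h5, h6⟩ := Finset.mem_erase.1 hu
          obtain ⟨h7, h8⟩ := h2 u h6
          refine ⟨?_, ?_⟩
          · rcases Nat.lt_succ_iff_lt_or_eq.1 h7 with h9 | h9
            · exact h9
            · exact absurd (Fin.ext h9) h5
          · rw [Nat.testBit_and, h8, Bool.true_and]
            exact (hn ⟨v, by omega⟩ u).1 (h1 _ h3 _ h6 (Ne.symm h5))
      · have h5 := mk_insert (σ.erase ⟨v, by omega⟩) (Finset.notMem_erase (⟨v, by omega⟩ : Fin n) σ)
        rw [Finset.insert_erase h3] at h5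
        exact h5.symm
    · have h4 : mk σ ∈ cl nb v a := ih (by omega) a σ h1 fun u hu => by
        obtain ⟨h7, h8⟩ := h2 u hu
        refine ⟨?_, h8⟩
        rcases Nat.lt_succ_iff_lt_or_eq.1 h7 with h9 | h9
        · exact h9
        · refine absurd hu ?_
          rwa [show u = (⟨v, by omega⟩ : Fin n) from Fin.ext h9]
      split_ifs
      · exact List.mem_append_left _ h4
      · exact h4

theorem cl_sound {n : ℕ} (nb : ℕ → ℕ) (adj : Fin n → Fin n → Prop)
    (hs : ∀ u v, adj u v → adj v u)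
    (hn : ∀ u v : Fin n, adj u v ↔ (nb u.1).testBit v.1 = true) (v : ℕ) (hv : v ≤ n) (a : ℕ)
    (m : ℕ) (hm : m ∈ cl nb v a) : ∃ σ : Finset (Fin n), Clq adj σ ∧
      (∀ u ∈ σ, u.1 < v ∧ a.testBit u.1 = true) ∧ mk σ = m := by
  induction v generalizing a m with
  | zero =>
    refine ⟨∅, ?_, ?_, ?_⟩
    · intro u hu
      simp at hu
    · intro u hu
      simp at hu
    · simp only [cl, List.mem_singleton] at hm
      rw [hm]
      rfl
  | succ v ih =>
    have key : ∀ m ∈ cl nb v a, ∃ σ : Finset (Fin n), Clq adj σ ∧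
        (∀ u ∈ σ, u.1 < v + 1 ∧ a.testBit u.1 = true) ∧ mk σ = m := by
      intro m hm
      obtain ⟨σ, h1, h2, h3⟩ := ih (by omega) a m hm
      exact ⟨σ, h1, fun u hu => ⟨by have := (h2 u hu).1; omega, (h2 u hu).2⟩, h3⟩
    unfold cl at hm
    by_cases h0 : a.testBit v = true
    · rw [if_pos h0, List.mem_append, List.mem_map] at hm
      rcases hm with hm | ⟨m', hm', rfl⟩
      · exact key m hm
      · obtain ⟨σ, h1, h2, h3⟩ := ih (by omega) _ m' hm'
        have h4 : (⟨v, by omega⟩ : Fin n) ∉ σ := fun h => by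
          have := (h2 _ h).1
          simp at this
        have h5 : ∀ u ∈ σ, adj ⟨v, by omega⟩ u := by
          intro u hu
          have h6 := (h2 u hu).2
          rw [Nat.testBit_and, Bool.and_eq_true] at h6
          exact (hn _ _).2 h6.2
        refine ⟨insert ⟨v, by omega⟩ σ, ?_, ?_, ?_⟩
        · intro x hx y hy hxy
          rw [Finset.mem_insert] at hx hy
          rcases hx with hx | hx
          · rcases hy with hy | hy
            · exact absurd (hx.trans hy.symm) hxy
            · rw [hx]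
              exact h5 y hy
          · rcases hy with hy | hy
            · rw [hy]
              exact hs _ _ (h5 x hx)
            · exact h1 x hx y hy hxy
        · intro u hu
          rw [Finset.mem_insert] at hu
          rcases hu with hu | hu
          · rw [hu]
            exact ⟨by simp, h0⟩
          · obtain ⟨h6, h7⟩ := h2 u hu
            rw [Nat.testBit_and, Bool.and_eq_true] at h7
            exact ⟨by omega, h7.1⟩
        · rw [mk_insert σ h4, h3]
    · rw [if_neg h0] at hm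
      exact key m hm

/-! ### the checker -/

theorem ev_ne {l : List (ℕ × ℤ)} {k : ℕ} (h : ev l k ≠ 0) : ∃ p ∈ l, p.1 = k := by
  by_contra hc
  push Not at hc
  apply h
  induction l with
  | nil => rfl
  | cons p l ih =>
    rw [ev_cons, if_neg (hc p List.mem_cons_self), zero_add]
    apply ih
    · intro h'
      apply h
      rw [ev_cons, if_neg (hc p List.mem_cons_self), zero_add, h']
    · intro q hq
      exact hc q (List.mem_cons_of_mem _ hq)

/-- lookup -/
def lk (L : List (ℕ × List (ℕ × ℤ))) (m : ℕ) : List (ℕ × ℤ) :=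
  match L with
  | [] => []
  | p :: L => if p.1 = m then p.2 else lk L m

/-- The checks for one row. -/
def row (n : ℕ) (L : List (ℕ × List (ℕ × ℤ))) (a b α β : List (ℕ × ℤ)) (m : ℕ) : Bool :=
  decide (nf (ap (lk L) (fc m n) ++ (ap (fun j => fc j n) (lk L m) ++
    (sc (ev α m) a ++ sc (ev β m) b))) = [(m, 1)]) &&
  (decide (((fc m n).map fun p => p.2 * ev α p.1).sum = 2 * ev β m) &&
  (lk L m).all fun p => decide (pc p.1 n = pc m n + 1))

/-- all keys in a list -/
def kin (K : List ℕ) (l : List (ℕ × ℤ)) : Bool := l.all fun p => K.elem p.1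

/-- The checker. -/
def chk (n : ℕ) (nb : ℕ → ℕ) (m0 : ℕ) (L : List (ℕ × List (ℕ × ℤ))) (a b α β : List (ℕ × ℤ)) :
    Bool :=
  ((cl nb n m0).all (row n L a b α β)) &&
  (L.all (fun p => kin (cl nb n m0) p.2) && (kin (cl nb n m0) a && (kin (cl nb n m0) b &&
  ((a.all fun p => decide (pc p.1 n = 2)) && ((b.all fun p => decide (pc p.1 n = 3)) &&
  ((α.all fun p => decide (pc p.1 n = 2)) && ((β.all fun p => decide (pc p.1 n = 3)) &&
  (decide (nf (ap (fun j => fc j n) b ++ sc (-2) a) = []) &&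
  decide ((a.map fun p => p.2 * ev α p.1).sum = 1)))))))))

theorem chk_sound (n : ℕ) (nb : ℕ → ℕ) (m0 : ℕ) (L : List (ℕ × List (ℕ × ℤ)))
    (a b α β : List (ℕ × ℤ)) (h : chk n nb m0 L a b α β = true)
    (adj : Fin n → Fin n → Prop) (hs : ∀ u v, adj u v → adj v u)
    (hn : ∀ u v : Fin n, adj u v ↔ (nb u.1).testBit v.1 = true)
    (A : Finset (Fin n)) (hA : ∀ v : Fin n, v ∈ A ↔ m0.testBit v.1 = true) :
    (∀ k, k ≠ 2 → Subsingleton ((St adj (fun v : Fin n => v.1) Fin.val_injective A).Hk k)) ∧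
    Nat.card ((St adj (fun v : Fin n => v.1) Fin.val_injective A).Hk 2) = 2 := by
  classical
  unfold chk at h
  simp only [Bool.and_eq_true, decide_eq_true_eq, List.all_eq_true] at h
  obtain ⟨hrow, hL, hka, hkb, hda, hdb, hdα, hdβ, hb2, ha1⟩ := h
  set C := St adj (fun v : Fin n => v.1) Fin.val_injective A with hC
  let μ : C.S → ℕ := fun s => mk s.1.2
  have hμ : Function.Injective μ := by
    rintro ⟨⟨x, σ⟩, hx⟩ ⟨⟨y, τ⟩, hy⟩ h
    have h1 : σ = τ := mk_inj h
    subst h1
    rfl
  have hμcl : ∀ s : C.S, μ s ∈ cl nb n m0 := by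
    rintro ⟨⟨x, σ⟩, h1, h2⟩
    exact cl_complete nb adj hn n le_rfl m0 σ h1 fun u hu => ⟨u.2, (hA u).1 (h2 hu)⟩
  have hclμ : ∀ m ∈ cl nb n m0, ∃ s : C.S, μ s = m := by
    intro m hm
    obtain ⟨σ, h1, h2, h3⟩ := cl_sound nb adj hs hn n le_rfl m0 m hm
    exact ⟨⟨((), σ), h1, fun u hu => (hA u).2 (h2 u hu).2⟩, h3⟩
  have hkin : ∀ l : List (ℕ × ℤ), kin (cl nb n m0) l = true → ∀ p ∈ l, ∃ s : C.S, μ s = p.1 := by
    intro l hl p hp
    unfold kin at hl
    rw [List.all_eq_true] at hl
    exact hclμ _ (List.elem_iff.1 (hl p hp))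
  have hD : ∀ s t : C.S, C.D s t = ev (fc (μ s) n) (μ t) := by
    rintro ⟨⟨x, σ⟩, h1, h2⟩ ⟨⟨y, τ⟩, h3, h4⟩
    show WSet.mat (stW ℤ adj A) (fun v : Fin n => v.1) _ _ = ev (fc (mk σ) n) (mk τ)
    rw [faces_ev]
    unfold WSet.mat
    refine Finset.sum_congr rfl fun v _ => ?_
    simp only
    by_cases h5 : τ = σ.erase v
    · rw [if_pos h5, if_pos (show mk (σ.erase v) = mk τ by rw [h5])]
      have hxy : y = x := rfl
      rw [if_pos hxy, if_pos (show y = (stW ℤ adj A).ρ v x from rfl)]
      show ((sg (fun v : Fin n => v.1) v (σ.erase v) : ℤ) : ℤ) * (1 - 0) = _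
      rw [sub_zero, mul_one]
    · rw [if_neg h5, if_neg]
      intro h6
      exact h5 (mk_inj h6).symm
  have hcard : ∀ s : C.S, C.deg s = pc (μ s) n := by
    rintro ⟨⟨x, σ⟩, h1, h2⟩
    show σ.card = pc (mk σ) n
    rw [pc_card]
  have hfc : ∀ s : C.S, ∀ p ∈ fc (μ s) n, ∃ t : C.S, μ t = p.1 := by
    have key : ∀ (m v : ℕ), ∀ p ∈ fc m v, ∃ i < v, m.testBit i = true ∧ p.1 = m - 2 ^ i := by
      intro m v
      induction v with
      | zero =>
        intro p hp
        simp [fc] at hp
      | succ v ih =>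
        intro p hp
        unfold fc at hp
        by_cases h0 : m.testBit v = true
        · rw [if_pos h0, List.mem_cons] at hp
          rcases hp with hp | hp
          · exact ⟨v, by omega, h0, by rw [hp]⟩
          · obtain ⟨i, hi, h1, h2⟩ := ih p hp
            exact ⟨i, by omega, h1, h2⟩
        · rw [if_neg h0] at hp
          obtain ⟨i, hi, h1, h2⟩ := ih p hp
          exact ⟨i, by omega, h1, h2⟩
    rintro ⟨⟨x, σ⟩, h1, h2⟩ p hp
    obtain ⟨i, hi, h3, h4⟩ := key _ _ p hp
    have h5 : (⟨i, hi⟩ : Fin n) ∈ σ := (mk_testBit σ ⟨i, hi⟩).1 h3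
    refine ⟨⟨((), σ.erase ⟨i, hi⟩), ?_, ?_⟩, ?_⟩
    · intro u hu v hv huv
      exact h1 u (Finset.mem_of_mem_erase hu) v (Finset.mem_of_mem_erase hv) huv
    · exact fun u hu => h2 (Finset.mem_of_mem_erase hu)
    · show mk (σ.erase ⟨i, hi⟩) = p.1
      rw [h4, mk_erase σ h5]
  have hlk : ∀ (m : ℕ) (p : ℕ × ℤ), p ∈ lk L m → ∃ s : C.S, μ s = p.1 := by
    have key : ∀ (L' : List (ℕ × List (ℕ × ℤ))) (m : ℕ) (p : ℕ × ℤ), p ∈ lk L' m →
        ∃ q ∈ L', p ∈ q.2 := by
      intro L' m p hp
      induction L' with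
      | nil => simp [lk] at hp
      | cons q L' ih =>
        unfold lk at hp
        by_cases h0 : q.1 = m
        · rw [if_pos h0] at hp
          exact ⟨q, List.mem_cons_self, hp⟩
        · rw [if_neg h0] at hp
          obtain ⟨q', h1, h2⟩ := ih hp
          exact ⟨q', List.mem_cons_of_mem _ h1, h2⟩
    intro m p hp
    obtain ⟨q, h1, h2⟩ := key L m p hp
    exact hkin q.2 (hL q h1) p h2
  refine ctr_main C (fun s t => ev (lk L (μ s)) (μ t)) (fun s => ev a (μ s)) (fun s => ev b (μ s))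
    (fun s => ev α (μ s)) (fun s => ev β (μ s)) ?_ ?_ ?_ ?_ ?_ ?_ ?_ ?_ ?_
  · intro s t hst
    obtain ⟨p, hp, hp'⟩ := ev_ne hst
    have h1 := hrow _ (hμcl s)
    unfold row at h1
    simp only [Bool.and_eq_true, decide_eq_true_eq, List.all_eq_true] at h1
    rw [hcard, hcard, ← hp']
    exact h1.2.2 p hp
  · intro s hst
    obtain ⟨p, hp, hp'⟩ := ev_ne hst
    rw [hcard, ← hp']
    exact hda p hp
  · intro s hst
    obtain ⟨p, hp, hp'⟩ := ev_ne hst
    rw [hcard, ← hp']
    exact hdb p hp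
  · intro s hst
    obtain ⟨p, hp, hp'⟩ := ev_ne hst
    rw [hcard, ← hp']
    exact hdα p hp
  · intro s hst
    obtain ⟨p, hp, hp'⟩ := ev_ne hst
    rw [hcard, ← hp']
    exact hdβ p hp
  · ext s t
    have h1 := hrow _ (hμcl s)
    unfold row at h1
    simp only [Bool.and_eq_true, decide_eq_true_eq, List.all_eq_true] at h1
    have h2 : ev (nf _) (μ t) = ev [(μ s, (1 : ℤ))] (μ t) :=
      congrArg (fun l => ev l (μ t)) h1.1
    rw [ev_nf, ev_append, ev_append, ev_append, ev_sc, ev_sc] at h2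
    have h3 := ev_ap μ hμ (lk L) (fc (μ s) n) (hfc s) (μ t)
    have h4 := ev_ap μ hμ (fun j => fc j n) (lk L (μ s)) (hlk (μ s)) (μ t)
    show (∑ j : C.S, C.D s j * ev (lk L (μ j)) (μ t)) +
      (∑ j : C.S, ev (lk L (μ s)) (μ j) * C.D j t) + ev α (μ s) * ev a (μ t) +
      ev β (μ s) * ev b (μ t) = (1 : Matrix C.S C.S ℤ) s t
    rw [Matrix.one_apply]
    have h5 : ∑ j : C.S, C.D s j * ev (lk L (μ j)) (μ t) =
        ∑ j : C.S, ev (fc (μ s) n) (μ j) * ev (lk L (μ j)) (μ t) :=
      Finset.sum_congr rfl fun j _ => by rw [hD]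
    have h6 : ∑ j : C.S, ev (lk L (μ s)) (μ j) * C.D j t =
        ∑ j : C.S, ev (lk L (μ s)) (μ j) * ev (fc (μ j) n) (μ t) :=
      Finset.sum_congr rfl fun j _ => by rw [hD]
    rw [h5, h6, h3, h4]
    have h7 : ev [(μ s, (1 : ℤ))] (μ t) = if s = t then 1 else 0 := by
      rw [ev_cons, ev_nil, add_zero]
      by_cases hst : s = t
      · rw [if_pos hst, if_pos (by rw [hst])]
      · rw [if_neg hst, if_neg fun h => hst (hμ h)]
    rw [← h7, ← h2]
    ring
  · ext t
    have h4 := ev_ap μ hμ (fun j => fc j n) b (hkin b hkb) (μ t)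
    have h5 : Matrix.vecMul (fun s => ev b (μ s)) C.D t =
        ∑ j : C.S, ev b (μ j) * ev (fc (μ j) n) (μ t) :=
      Finset.sum_congr rfl fun j _ => by
        show ev b (μ j) * C.D j t = _
        rw [hD]
    rw [h5, h4]
    have h6 : ev (nf _) (μ t) = ev [] (μ t) := congrArg (fun l => ev l (μ t)) hb2
    rw [ev_nf, ev_append, ev_sc, ev_nil] at h6
    show _ = (2 : ℤ) * ev a (μ t)
    linarith
  · ext s
    have h1 := hrow _ (hμcl s)
    unfold row at h1
    simp only [Bool.and_eq_true, decide_eq_true_eq, List.all_eq_true] at h1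
    have h4 := ev_dot μ hμ (fun k => ev α k) (fc (μ s) n) (hfc s)
    have h5 : C.D.mulVec (fun s => ev α (μ s)) s =
        ∑ j : C.S, ev (fc (μ s) n) (μ j) * ev α (μ j) :=
      Finset.sum_congr rfl fun j _ => by
        show C.D s j * ev α (μ j) = _
        rw [hD]
    rw [h5, h4, h1.2.1]
    rfl
  · have h4 := ev_dot μ hμ (fun k => ev α k) a (hkin a hka)
    show ∑ s : C.S, ev a (μ s) * ev α (μ s) = 1
    rw [h4, ha1]

end MC

end Pool.LU
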