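import Pool.Agent.H32.LU.YDefs

/-!
Project LU, part Y: the data. A flag triangulation of the 4-sphere with 36 vertices and 416 facets (the
boundary complex of a simplicial polytope) with a proper colouring by five colours and signs such
that all 32 states are rationally acyclic and two of them have torsion.
-/

set_option autoImplicit false

open Pool.H3.L2

namespace Pool.LU.YP

/-- The neighbours of the 36 vertices, as bit masks. -/
def mskL : List ℕ := [
  51447207886, 26467033369, 59299711537, 18498963507, 55945382894, 19839385628,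
  31290796689, 30215938385, 64584605843, 33439197269, 11566100481, 28944216668,
  12635712513, 39224795074, 37394620702, 41682370526, 12854762092, 26459021787,
  1994120235, 63281832223, 27531913305, 50495880705, 11570832385, 37420294462,
  47789522882, 20812988477, 19738773564, 57010752495, 3335380001, 9695132675,
  11713974861, 40112872997, 62430159829, 40290164675, 38891293694, 32374317333]

/-- The colours. -/
def colL : List (Fin 5) := [
  0, 2, 3, 3, 4, 1, 3, 2, 3, 2, 1, 1, 2, 4, 1, 0, 0, 1,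
  4, 1, 2, 3, 2, 0, 0, 2, 2, 4, 3, 3, 1, 4, 1, 4, 0, 2]

/-- The signs (0 stands for 1, 1 stands for -1). -/
def sgnL : List ℕ := [
  0, 0, 1, 0, 1, 0, 1, 1, 0, 1, 0, 1, 0, 0, 1, 1, 1, 1,
  0, 0, 1, 1, 1, 0, 1, 1, 0, 0, 0, 0, 0, 1, 0, 1, 1, 0]

/-- The normals `n` and numbers `b` of the facets `n·x ≤ b` of the polytope. -/
def nrmL : List (List ℤ) := [
  [-1, -1, -3, 0, -7, 5], [-3, 2, 3, -3, -2, 5], [4, 3, -2, 5, 0, 5], [2, 3, 0, -5, 0, 5],
  [1, 6, 2, 1, 3, 5], [5, 1, 0, -1, -2, 5], [-4, 4, -4, 0, 1, 5], [-5, 4, 0, -1, -1, 5],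
  [-4, 3, 4, 1, -2, 5], [-2, 2, -4, 4, 1, 5], [0, -5, 0, 0, 0, 5], [-1, 1, -5, -1, 4, 5],
  [0, -4, -3, -1, 0, 5], [-6, -3, 4, 0, 2, 6], [1, -1, 5, 0, 3, 5], [-2, 0, 2, -1, 7, 5],
  [1, -1, -6, -1, 0, 5], [-5, 4, 0, -4, -1, 5], [2, -2, 0, -5, 0, 5], [2, 0, 5, 0, -4, 5],
  [-4, 4, -4, -4, 1, 6], [-1, -4, -1, 4, 0, 5], [1, -4, 3, 0, 0, 5], [3, -1, 6, 0, -1, 5],
  [-5, -3, 1, 0, -1, 5], [5, 1, 0, -1, -3, 5], [4, 2, 0, 0, 1, 5], [0, 7, -4, 0, -4, 5],
  [3, -3, 0, -1, 0, 5], [-2, -3, 0, -4, 0, 5], [0, -1, -5, 0, -4, 5], [3, -3, -2, 5, 0, 5],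
  [-4, 4, 0, 4, -1, 5], [-4, -3, -1, 0, -3, 5], [1, 7, -1, 1, 0, 5], [-3, 3, 4, 3, -2, 5]]

/-- The mask of the neighbours of `v`. -/
def msk (v : ℕ) : ℕ := mskL.getD v 0

/-- The graph with 36 vertices. -/
def adjY (u v : Fin 36) : Prop := (msk u.1).testBit v.1 = true

instance : DecidableRel adjY := fun u v => inferInstanceAs (Decidable ((msk u.1).testBit v.1 = true))

theorem adjY_symm : ∀ u v, adjY u v → adjY v u := by decide

theorem adjY_irrefl : ∀ v, ¬ adjY v v := by decide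

/-- The colouring and the signs. -/
def colY : Colr (Fin 36) adjY where
  col v := colL.getD v.1 0
  sy v := if sgnL.getD v.1 0 = 0 then 1 else -1
  proper := by decide

/-- The polytope in `ℝ^5` with 36 facets. -/
noncomputable def polY : SPoly 5 (Fin 36) where
  a v := ∑ i : Fin 5, (-(((nrmL.getD v.1 []).getD i.1 0 : ℤ) : ℝ)) • LinearMap.proj i
  b v := (((nrmL.getD v.1 []).getD 5 0 : ℤ) : ℝ)

end Pool.LU.YP
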