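import Pool.Agent.H99.LU.RDefs

/-!
Project LU, part Y: definitions. Colourings with signs (states), the sets `X × ℤ/M`, the Morse
complex over a commutative ring `R` with a parameter `z`, homology groups of the complexes.
-/

set_option autoImplicit false

open scoped BigOperators Topology
open Filter Pool.H3.L2

noncomputable section

namespace Pool.LU.YP

/-- A proper colouring with five colours and a sign for every vertex. -/
structure Colr (V : Type) (adj : V → V → Prop) where
  col : V → Fin 5
  sy : V → ℤˣ
  proper : ∀ u v, adj u v → col u ≠ col v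

section states

variable {V : Type} [Fintype V] [DecidableEq V] {adj : V → V → Prop} (c : Colr V adj)

/-- The parity of the number of walls of colour `k` between the base point and `y`. -/
def par (X : XSet V adj) (k : Fin 5) (y : X.X) : ℤˣ := ∏ u, if c.col u = k then X.χ u y else 1

theorem par_ρ (X : XSet V adj) (k : Fin 5) (v : V) (y : X.X) :
    par c X k (X.ρ v y) = if c.col v = k then - par c X k y else par c X k y := by
  classical
  unfold par
  by_cases h : c.col v = k
  · rw [if_pos h, ← Finset.mul_prod_erase Finset.univ _ (Finset.mem_univ v),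
      ← Finset.mul_prod_erase Finset.univ (fun u => if c.col u = k then X.χ u y else 1)
        (Finset.mem_univ v), if_pos h, if_pos h, X.χ_self, ← neg_mul]
    congr 1
    refine Finset.prod_congr rfl fun u hu => ?_
    rw [X.χ_ne u v (Finset.ne_of_mem_erase hu)]
  · rw [if_neg h]
    refine Finset.prod_congr rfl fun u _ => ?_
    by_cases hu : u = v
    · subst hu
      rw [if_neg h, if_neg h]
    · rw [X.χ_ne u v hu]

/-- The state of `y`: the set of the generators which lower the height at `y`. -/
def Dn (X : XSet V adj) (y : X.X) : Set V := {v | c.sy v * par c X (c.col v) y = -1}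

theorem mem_Dn_self (X : XSet V adj) (y : X.X) (v : V) :
    v ∈ Dn c X (X.ρ v y) ↔ v ∉ Dn c X y := by
  show c.sy v * par c X (c.col v) (X.ρ v y) = -1 ↔ ¬ (c.sy v * par c X (c.col v) y = -1)
  rw [par_ρ, if_pos rfl]
  rcases Int.units_eq_one_or (c.sy v) with h | h <;>
    rcases Int.units_eq_one_or (par c X (c.col v) y) with h' | h' <;> rw [h, h'] <;> decide

theorem mem_Dn_of_ne (X : XSet V adj) (y : X.X) (u v : V) (h : c.col u ≠ c.col v) :
    u ∈ Dn c X (X.ρ v y) ↔ u ∈ Dn c X y := by
  show c.sy u * par c X (c.col u) (X.ρ v y) = -1 ↔ c.sy u * par c X (c.col u) y = -1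
  rw [par_ρ, if_neg fun h' => h h'.symm]

open Classical in
/-- The change of the height when passing from `y` to `ρ v y`. -/
def eps (X : XSet V adj) (y : X.X) (v : V) : ℤ := if v ∈ Dn c X y then -1 else 1

theorem eps_self (X : XSet V adj) (y : X.X) (v : V) : eps c X (X.ρ v y) v = - eps c X y v := by
  unfold eps
  by_cases h : v ∈ Dn c X y
  · rw [if_pos h, if_neg (by rw [mem_Dn_self]; exact not_not.2 h)]
    rfl
  · rw [if_neg h, if_pos ((mem_Dn_self c X y v).2 h)]

theorem eps_of_ne (X : XSet V adj) (y : X.X) (u v : V) (h : c.col u ≠ c.col v) :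
    eps c X (X.ρ v y) u = eps c X y u := by
  unfold eps
  rw [mem_Dn_of_ne c X y u v h]

/-- The set `X × ℤ/M`, where the generators change the second component by the change of the
height. -/
def xM (X : XSet V adj) (M : ℕ) [NeZero M] : XSet V adj where
  X := X.X × ZMod M
  ρ v p := (X.ρ v p.1, p.2 + (eps c X p.1 v : ZMod M))
  χ v p := X.χ v p.1
  ρρ v := by
    rintro ⟨y, j⟩
    refine Prod.ext (X.ρρ v y) ?_
    show j + (eps c X y v : ZMod M) + (eps c X (X.ρ v y) v : ZMod M) = j
    rw [eps_self]
    push_cast
    ring
  comm u v h := by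
    rintro ⟨y, j⟩
    refine Prod.ext (X.comm u v h y) ?_
    show j + (eps c X y v : ZMod M) + (eps c X (X.ρ v y) u : ZMod M) =
      j + (eps c X y u : ZMod M) + (eps c X (X.ρ u y) v : ZMod M)
    rw [eps_of_ne c X y u v (c.proper u v h), eps_of_ne c X y v u (c.proper u v h).symm]
    ring
  χ_self v p := X.χ_self v p.1
  χ_ne u v h p := X.χ_ne u v h p.1

end states

/-! ### the Morse complex -/

/-- The basis of the Morse complex: pairs of a point `y` and a clique in its state. -/
def MoS {V : Type} [Fintype V] [DecidableEq V] {adj : V → V → Prop} (c : Colr V adj)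
    (X : XSet V adj) : Type :=
  {p : X.X × Finset V // Clq adj p.2 ∧ ∀ v ∈ p.2, v ∈ Dn c X p.1}

section morse

variable {V : Type} [Fintype V] [DecidableEq V] {adj : V → V → Prop} (c : Colr V adj)
  (X : XSet V adj)

instance : Finite (MoS c X) := Subtype.finite
instance : Fintype (MoS c X) := Fintype.ofFinite _
instance : DecidableEq (MoS c X) := Classical.decEq _

open Classical in
/-- The boundary matrix of the Morse complex, with the parameter `z`. -/
def moD (R : Type) [CommRing R] (z : R) (o : V → ℕ) : Matrix (MoS c X) (MoS c X) R := fun p q =>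
  ∑ v ∈ p.1.2, if q.1.2 = p.1.2.erase v then
    ((sg o v (p.1.2.erase v) : ℤ) : R) *
      ((if q.1.1 = p.1.1 then 1 else 0) - (if q.1.1 = X.ρ v p.1.1 then z else 0))
  else 0

/-- MDD: the square of the boundary matrix is zero -/
def MDDStmt : Prop := ∀ (V : Type) [Fintype V] [DecidableEq V] (adj : V → V → Prop)
  (c : Colr V adj) (X : XSet V adj) (R : Type) [CommRing R] (z : R) (o : V → ℕ),
  (∀ u v, adj u v → adj v u) → Function.Injective o → moD c X R z o * moD c X R z o = 0

open Classical in
/-- The Morse complex over `R` with the parameter `z`. (The case distinction is only there to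
postpone the proof of `MDD`.) -/
def mor (R : Type) [CommRing R] (z : R) (o : V → ℕ) : BCx R where
  S := MoS c X
  deg p := p.1.2.card
  D := if moD c X R z o * moD c X R z o = 0 then moD c X R z o else 0
  deg_D := by
    intro p q h
    split_ifs at h with h0
    · by_contra hne
      refine h ?_
      refine Finset.sum_eq_zero fun v hv => ?_
      rw [if_neg]
      intro h1
      refine hne ?_
      rw [h1, Finset.card_erase_of_mem hv]
      have := Finset.card_pos.2 ⟨v, hv⟩
      omega
    · exact absurd rfl h
  D_D := by
    split_ifs with h0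
    · exact h0
    · simp

end morse

/-! ### homology groups -/

/-- The homology in degree `k` of the complex of antisymmetric functions on cliques. -/
abbrev HCh (F : Type) [CommRing F] {V : Type} [Fintype V] [DecidableEq V]
    {adj : V → V → Prop} (o : V → ℕ) (X : XSet V adj) (k : ℕ) : Type :=
  ↥(Ch F adj X.ρ Set.univ k ⊓ LinearMap.ker (bd F o X.X)) ⧸
    ((Ch F adj X.ρ Set.univ (k + 1)).map (bd F o X.X)).submoduleOf
      (Ch F adj X.ρ Set.univ k ⊓ LinearMap.ker (bd F o X.X))

/-- The chains of degree `k` of the full subcomplex on `A` (cliques with `k` elements). -/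
def Sc (F : Type) [CommRing F] {V : Type} (adj : V → V → Prop) (A : Set V) (k : ℕ) :
    Submodule F (Finset V → Unit → F) where
  carrier := {x | ∀ σ, x σ ≠ 0 → σ.card = k ∧ (∀ v ∈ σ, v ∈ A) ∧ Clq adj σ}
  add_mem' := by
    rintro x x' h1 h1' σ hσ
    by_cases h : x σ = 0
    · refine h1' σ fun h' => hσ ?_
      rw [Pi.add_apply, h, h', add_zero]
    · exact h1 σ h
  zero_mem' := fun σ hσ => absurd rfl hσ
  smul_mem' := by
    rintro c x h1 σ hσ
    refine h1 σ fun h => hσ ?_
    rw [Pi.smul_apply, h, smul_zero]

/-- The homology of the (augmented) chain complex of the full subcomplex on `A`; degree `k` are the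
cliques with `k` elements. -/
abbrev HSc (F : Type) [CommRing F] {V : Type} [Fintype V] [DecidableEq V] (adj : V → V → Prop)
    (o : V → ℕ) (A : Set V) (k : ℕ) : Type :=
  ↥(Sc F adj A k ⊓ LinearMap.ker (bd F o Unit)) ⧸
    ((Sc F adj A (k + 1)).map (bd F o Unit)).submoduleOf
      (Sc F adj A k ⊓ LinearMap.ker (bd F o Unit))

/-- The full subcomplex on `A` is acyclic over `F`. -/
def Acy (F : Type) [CommRing F] {V : Type} [Fintype V] [DecidableEq V] (adj : V → V → Prop)
    (o : V → ℕ) (A : Set V) : Prop := ∀ k, Subsingleton (HSc F adj o A k)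

/-- The order of the torsion subgroup. -/
def tor (A : Type) [AddCommGroup A] : ℕ := Nat.card (Submodule.torsion ℤ A)

/-- The set of vertices in the state `f`. -/
def StA {V : Type} {adj : V → V → Prop} (c : Colr V adj) (f : Fin 5 → ℤˣ) : Set V :=
  {v | c.sy v * f (c.col v) = -1}

theorem Dn_eq {V : Type} [Fintype V] [DecidableEq V] {adj : V → V → Prop} (c : Colr V adj)
    (X : XSet V adj) (y : X.X) : Dn c X y = StA c (fun k => par c X k y) := rfl

/-- The polynomial `1 + X + ... + X^(M-1)`. -/
def gM (F : Type) [CommRing F] (M : ℕ) : Polynomial F := ∑ i ∈ Finset.range M, Polynomial.X ^ i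

/-- Reduction of a complex over `R` modulo `g`. -/
abbrev cmod {R : Type} [CommRing R] (C : BCx R) (g : R) : BCx (R ⧸ Ideal.span {g}) :=
  C.map (Ideal.Quotient.mk (Ideal.span {g}))

end Pool.LU.YP
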