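import Pool.Agent.H32.LU.YData

/-!
Project LU, part Y: statements of the modules.
-/

set_option autoImplicit false
set_option linter.unusedVariables false

open scoped BigOperators Topology Polynomial
open Filter Pool.H3.L2

noncomputable section

namespace Pool.LU.YP

/-! ### algebra over `ℤ[X]` -/

/-- LEZ: the long exact sequence of `0 → C → C → C/g → 0`. -/
def LEZStmt : Prop := ∀ (R : Type) [CommRing R] [IsDomain R] (C : BCx R) (g : R), g ≠ 0 →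
  (∃ i : (C.Hk 0 ⧸ (Ideal.span {g} • (⊤ : Submodule R (C.Hk 0)))) →+ (cmod C g).Hk 0,
    Function.Bijective i ∧ ∀ (r : R) x, i (r • x) = Ideal.Quotient.mk (Ideal.span {g}) r • i x) ∧
  ∀ k, ∃ (i : (C.Hk (k + 1) ⧸ (Ideal.span {g} • (⊤ : Submodule R (C.Hk (k + 1))))) →+
      (cmod C g).Hk (k + 1)) (p : (cmod C g).Hk (k + 1) →+ C.Hk k),
    Function.Injective i ∧ (∀ x, p x = 0 ↔ ∃ y, i y = x) ∧ (∀ y, (∃ x, p x = y) ↔ g • y = 0) ∧
    (∀ (r : R) x, i (r • x) = Ideal.Quotient.mk (Ideal.span {g}) r • i x) ∧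
    ∀ (r : R) x, p (Ideal.Quotient.mk (Ideal.span {g}) r • x) = r • p x

/-- GMZ: comparison of `C / (1 + ... + X^(M-1))` and `C / (X^M - 1)`. -/
def GMZStmt : Prop := ∀ (C : BCx ℤ[X]) (k M : ℕ), 1 ≤ M →
  ∀ A : AddSubgroup ((cmod C (gM ℤ M)).Hk k), Finite A →
    Nat.card A ≤ M ^ Fintype.card C.S * tor ((cmod C (Polynomial.X ^ M - 1)).Hk k)

/-- DEL: the order of a torsion module over `ℤ[X]` -/
def DELStmt : Prop := ∀ (T : Type) [AddCommGroup T] [Module ℤ[X] T] [Module.Finite ℤ[X] T]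
  (f : ℤ[X]), f ≠ 0 → (∀ t : T, f • t = 0) → ∃ (D : ℤ[X]) (n : ℕ), D ∣ f ^ n ∧
  ∀ g : ℤ[X], g.Monic → IsCoprime (D.map (Int.castRingHom ℚ)) (g.map (Int.castRingHom ℚ)) →
    Finite (T ⧸ (Ideal.span {g} • (⊤ : Submodule ℤ[X] T))) ∧ Finite {t : T // g • t = 0} ∧
    Nat.card (T ⧸ (Ideal.span {g} • (⊤ : Submodule ℤ[X] T))) =
      Nat.card {t : T // g • t = 0} * Nat.card (ℤ[X] ⧸ Ideal.span {D, g})

/-- PRI: nonzero prime ideals of `ℤ[X]` are principal or have a finite quotient -/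
def PRIStmt : Prop := ∀ P : Ideal ℤ[X], P.IsPrime → P ≠ ⊥ →
  (∃ π : ℤ[X], Prime π ∧ P = Ideal.span {π}) ∨ Finite (ℤ[X] ⧸ P)

/-- CHL: Cayley-Hamilton -/
def CHLStmt : Prop := ∀ (R : Type) [CommRing R] [IsDomain R] (T : Type) [AddCommGroup T]
  [Module R[X] T] [Module.Finite R[X] T] (n : R), n ≠ 0 →
  (∀ t : T, ∃ s : T, Polynomial.C n • t = (Polynomial.X : R[X]) • s) →
  ∃ f : R[X], f.coeff 0 ≠ 0 ∧ ∀ t : T, f • t = 0

/-- RMU: the order of `ℤ[X] / (D, g)` is the absolute value of the resultant -/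
def RMUStmt : Prop := ∀ D g : ℤ[X], D ≠ 0 → g.Monic →
  IsCoprime (D.map (Int.castRingHom ℚ)) (g.map (Int.castRingHom ℚ)) →
  (Nat.card (ℤ[X] ⧸ Ideal.span {D, g}) : ℝ) = |(D.leadingCoeff : ℝ)| ^ g.natDegree *
    ((D.map (Int.castRingHom ℂ)).roots.map fun α => ‖(g.map (Int.castRingHom ℂ)).eval α‖).prod

/-- WIN: the resultants of `D` and `1 + ... + X^(M-1)` grow like `|D(0)|^M` for infinitely many
`M` -/
def WINStmt : Prop := ∀ D : ℤ[X], D.coeff 0 ≠ 0 → ∀ K : ℕ, 1 ≤ K → ∃ c : ℝ, 0 < c ∧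
  ∀ L : ℕ, ∃ M : ℕ, L ≤ M ∧ 1 ≤ M ∧ M ≡ 1 [MOD K] ∧
    (∀ α ∈ (D.map (Int.castRingHom ℂ)).roots, (gM ℂ M).eval α ≠ 0) ∧
    c * |(D.coeff 0 : ℝ)| ^ M ≤ |(D.leadingCoeff : ℝ)| ^ (M - 1) *
      ((D.map (Int.castRingHom ℂ)).roots.map fun α => ‖(gM ℂ M).eval α‖).prod

/-- TGA: the torsion growth theorem -/
def TGAStmt : Prop := ∀ C : BCx ℤ[X], Subsingleton ((cmod C (Polynomial.X : ℤ[X])).Hk 1) →
  Subsingleton ((cmod C (Polynomial.X : ℤ[X])).Hk 3) →
  2 ≤ Nat.card ((cmod C (Polynomial.X : ℤ[X])).Hk 2) → ∀ K : ℕ, 1 ≤ K → ∀ L : ℕ,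
  ∃ M : ℕ, L ≤ M ∧ 1 ≤ M ∧ M ≡ 1 [MOD K] ∧
    Nat.card ((cmod C (Polynomial.X : ℤ[X])).Hk 2) ^ M ≤
      tor ((cmod C (Polynomial.X ^ M - 1 : ℤ[X])).Hk 2) ^ 2

/-- RIN: change of coefficients along an isomorphism of rings -/
def RINStmt : Prop := ∀ (R R' : Type) [CommRing R] [CommRing R'] (φ : R ≃+* R') (C : BCx R) (k : ℕ),
  Nonempty (C.Hk k ≃+ (C.map φ.toRingHom).Hk k)

/-- BTS: the Betti numbers stay bounded -/
def BTSStmt : Prop := ∀ (F : Type) [Field F] (C : BCx F[X]),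
  (∀ k, Subsingleton ((cmod C (Polynomial.X : F[X])).Hk k)) →
  ∃ B : ℕ, ∀ (M : ℕ), 1 ≤ M → ∀ k,
    Module.Finite F ((cmod C (Polynomial.X ^ M - 1 : F[X])).Hk k) ∧
    Module.finrank F ((cmod C (Polynomial.X ^ M - 1 : F[X])).Hk k) ≤ B

/-! ### states -/

/-- VRM: removing a vertex with an acyclic link -/
def VRMStmt : Prop := ∀ (F : Type) [CommRing F] (V : Type) [Fintype V] [DecidableEq V]
  (adj : V → V → Prop), (∀ u v, adj u v → adj v u) → ∀ o : V → ℕ, Function.Injective o →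
  ∀ (A : Set V) (v : V), v ∉ A → Acy F adj o (A ∩ Lk adj v) →
  ∀ k, Nonempty (HSc F adj o (insert v A) k ≃ₗ[F] HSc F adj o A k)

/-- CON: cones are acyclic -/
def CONStmt : Prop := ∀ (F : Type) [CommRing F] (V : Type) [Fintype V] [DecidableEq V]
  (adj : V → V → Prop), (∀ u v, adj u v → adj v u) → ∀ o : V → ℕ, Function.Injective o →
  ∀ (A : Set V) (w : V), w ∈ A → (∀ u ∈ A, u ≠ w → adj u w) → Acy F adj o A

/-- The two states with torsion. -/
def fB (b : Bool) : Fin 5 → ℤˣ := fun k => if (k.1 % 2 == 0) == b then 1 else -1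

/-- GOO: the thirty acyclic states -/
def GOOStmt : Prop := ∀ (F : Type) [CommRing F] (o : Fin 36 → ℕ), Function.Injective o →
  ∀ f : Fin 5 → ℤˣ, (∀ b, f ≠ fB b) → Acy F adjY o (StA colY f)

/-- BAD: the two states with torsion -/
def BADStmt : Prop := ∀ (b : Bool) (o : Fin 36 → ℕ), Function.Injective o →
  ((∀ k, k ≠ 2 → Subsingleton (HSc ℤ adjY o (StA colY (fB b)) k)) ∧
    Nat.card (HSc ℤ adjY o (StA colY (fB b)) 2) = 2) ∧
  ∀ (F : Type) [CommRing F], IsUnit (2 : F) → Acy F adjY o (StA colY (fB b))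

/-! ### the Morse complex -/

/-- SLV: the Morse complex for `z = 0` is the sum of the complexes of the states -/
def SLVStmt : Prop := ∀ (V : Type) [Fintype V] [DecidableEq V] (adj : V → V → Prop)
  (c : Colr V adj) (X : XSet V adj) (R : Type) [CommRing R] (o : V → ℕ),
  (∀ u v, adj u v → adj v u) → Function.Injective o → ∀ k,
  Nonempty ((mor c X R 0 o).Hk k ≃ₗ[R] ((y : X.X) → HSc R adj o (Dn c X y) k))

/-- MAP: change of coefficients -/
def MAPStmt : Prop := ∀ (V : Type) [Fintype V] [DecidableEq V] (adj : V → V → Prop)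
  (c : Colr V adj) (X : XSet V adj) (R R' : Type) [CommRing R] [CommRing R'] (φ : R →+* R')
  (z : R) (o : V → ℕ), (∀ u v, adj u v → adj v u) → Function.Injective o →
  (mor c X R z o).map φ = mor c X R' (φ z) o

/-- MBI: the Morse basis of the antisymmetric functions on `X × ℤ/M` -/
def MBIStmt : Prop := ∀ (V : Type) [Fintype V] [DecidableEq V] (adj : V → V → Prop)
  (c : Colr V adj) (X : XSet V adj) (M : ℕ) [NeZero M] (F : Type) [CommRing F] (R : Type)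
  [CommRing R] [Algebra F R] (z : R) (e : R ≃ₗ[F] (ZMod M → F)) (o : V → ℕ),
  (∀ u v, adj u v → adj v u) → (∀ v, ¬ adj v v) → Function.Injective o →
  (∀ r j, e (z * r) j = e r (j + 1)) →
  ∀ k, Nonempty (HCh F o (xM c X M) k ≃ₗ[F] (mor c X R z o).Hk k)

/-- CYC: `F[X] / (X^M - 1)` -/
def CYCStmt : Prop := ∀ (F : Type) [CommRing F] (M : ℕ) [NeZero M],
  ∃ e : (F[X] ⧸ Ideal.span {(Polynomial.X ^ M - 1 : F[X])}) ≃ₗ[F] (ZMod M → F),
    ∀ r j, e (Ideal.Quotient.mk _ Polynomial.X * r) j = e r (j + 1)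

/-- PRT: all states occur equally often -/
def PRTStmt : Prop := ∀ (V : Type) [Fintype V] [DecidableEq V] (adj : V → V → Prop)
  (c : Colr V adj) (X : XSet V adj), (∀ k, ∃ v, c.col v = k) → ∀ f : Fin 5 → ℤˣ,
  32 * Nat.card {y : X.X // (fun k => par c X k y) = f} = Fintype.card X.X

/-- TOR: torsion growth for `X × ℤ/M` -/
def TORStmt : Prop := ∀ (X : XSet (Fin 36) adjY) (o : Fin 36 → ℕ), Function.Injective o →
  Nonempty X.X → ∀ K : ℕ, 1 ≤ K → ∀ L : ℕ, ∃ (M : ℕ) (_ : NeZero M), L ≤ M ∧ M ≡ 1 [MOD K] ∧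
    (Fintype.card X.X : ℝ) * M * (Real.log 2 / 32) ≤
      Real.log (tor (HCh ℤ o (xM colY X M) 2))

/-- BET: the Betti numbers of `X × ℤ/M` are bounded -/
def BETStmt : Prop := ∀ (X : XSet (Fin 36) adjY) (o : Fin 36 → ℕ), Function.Injective o →
  ∃ B : ℕ, ∀ (M : ℕ) [NeZero M] (k : ℕ), hh ℝ o (xM colY X M) Set.univ k ≤ B

/-! ### the group -/

/-- The parity of the number of letters of colour `k` in `w`. -/
def parW {V : Type} [Fintype V] [DecidableEq V] {adj : V → V → Prop} (c : Colr V adj) {W : Type}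
    [Group W] (R : RA V adj W) (k : Fin 5) (w : W) : ℤˣ :=
  ∏ u, if c.col u = k then R.χ w u else 1

open Classical in
/-- `h` is the height function of the signed colouring `c`. -/
structure IsHt {V : Type} [Fintype V] [DecidableEq V] {adj : V → V → Prop} (c : Colr V adj)
    {W : Type} [Group W] (R : RA V adj W) (h : W → ℤ) : Prop where
  one : h 1 = 0
  step : ∀ w v, h (w * R.s v) =
    h w + if c.sy v * parW c R (c.col v) w = -1 then -1 else 1
  mul : ∀ g ∈ R.χ.ker, ∀ w, h (g * w) = h g + h w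

/-- HGT: existence of the height function -/
def HGTStmt : Prop := ∀ (V : Type) [Fintype V] [DecidableEq V] (adj : V → V → Prop)
  (c : Colr V adj), (∀ u v, adj u v → adj v u) → ∀ (W : Type) [Group W] (R : RA V adj W),
  ∃ h : W → ℤ, IsHt c R h ∧ ∀ u v, c.col u = c.col v → c.sy u = 1 → c.sy v = -1 →
    h (R.s u * R.s v * R.s u * R.s v) = 4

/-- LAM: the subgroups `{g ∈ N | M divides h g}` -/
def LAMStmt : Prop := ∀ (V : Type) [Fintype V] [DecidableEq V] (adj : V → V → Prop)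
  (c : Colr V adj), (∀ u v, adj u v → adj v u) → ∀ (W : Type) [Group W] (R : RA V adj W)
  (h : W → ℤ), IsHt c R h → ∀ (N : Subgroup W) (h1 : N ≤ R.χ.ker) (h2 : N.FiniteIndex)
  (M : ℕ) [NeZero M], (∃ g ∈ N, IsCoprime (h g) (M : ℤ)) →
  ∃ (Λ : Subgroup W) (h3 : Λ ≤ R.χ.ker) (h4 : Λ.FiniteIndex),
    (∀ g, g ∈ Λ ↔ g ∈ N ∧ (M : ℤ) ∣ h g) ∧ Λ.index = N.index * M ∧
    ∃ e : (cosX R Λ h3 h4).X ≃ (xM c (cosX R N h1 h2) M).X,
      ∀ v y, e ((cosX R Λ h3 h4).ρ v y) = (xM c (cosX R N h1 h2) M).ρ v (e y)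

/-- ISO: isomorphic sets have isomorphic homology -/
def ISOStmt : Prop := ∀ (V : Type) [Fintype V] [DecidableEq V] (adj : V → V → Prop)
  (X Y : XSet V adj) (e : X.X ≃ Y.X), (∀ v y, e (X.ρ v y) = Y.ρ v (e y)) → ∀ (o : V → ℕ),
  (∀ (F : Type) [CommRing F] (k : ℕ), Nonempty (HCh F o X k ≃ₗ[F] HCh F o Y k)) ∧
  ∀ (F : Type) [Field F] (k : ℕ), hh F o X Set.univ k = hh F o Y Set.univ k

/-- REZ: the cubical resolution and the torsion of the homology of the covers -/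
def REZStmt : Prop := ∀ (V : Type) [Fintype V] [DecidableEq V] (adj : V → V → Prop),
  (∀ u v, adj u v → adj v u) → (∀ v, ¬ adj v v) → ∀ (W : Type) [Group W] (R : RA V adj W)
  (o : V → ℕ), Function.Injective o → ∃ C : BCx (GR R.χ.ker), C.IsRes ∧
  ∀ (N : Subgroup R.χ.ker) [N.Normal] [N.FiniteIndex] (h1 : N.map R.χ.ker.subtype ≤ R.χ.ker)
    (h2 : (N.map R.χ.ker.subtype).FiniteIndex) (k : ℕ),
    (C.cover N).betti ℝ k = hh ℝ o (cosX R (N.map R.χ.ker.subtype) h1 h2) Set.univ k ∧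
    (C.cover N).torsOrd k = tor (HCh ℤ o (cosX R (N.map R.χ.ker.subtype) h1 h2) k)

/-! ### the polytope -/

/-- PGD: the polytope -/
def PGDStmt : Prop := polY.Good ∧ polY.adj = adjY

end Pool.LU.YP
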